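import Mathlib
import Pool.Agent.Helper93.WC.St

set_option autoImplicit false

namespace Pool.Agent.Helper62.WC

open Polynomial Helper62.Weber Pool.Agent.Helper93.WC

theorem cISU : ISU := by
  intro S _ n j z hz h2 hj
  have key : ∀ i : ℕ, Odd i → IsUnit (1 - z ^ i) := by
    intro i hi
    have h1 : (1 - z ^ i) ∣ 1 - (z ^ i) ^ 2 ^ (n + 1) := by
      simpa using sub_dvd_pow_sub_pow (1 : S) (z ^ i) (2 ^ (n + 1))
    have h3 : 1 - (z ^ i) ^ 2 ^ (n + 1) = 2 := by
      rw [← pow_mul, mul_comm, pow_mul, hz, hi.neg_one_pow]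
      norm_num
    rw [h3] at h1
    exact isUnit_of_dvd_unit h1 h2
  refine ⟨key j hj, ?_⟩
  have h1 : Odd (j + 2 ^ (n + 1)) := by
    apply hj.add_even
    exact ⟨2 ^ n, by rw [pow_succ]; ring⟩
  have h3 := key _ h1
  rw [pow_add, hz, mul_neg, mul_one, sub_neg_eq_add] at h3
  exact h3

end Pool.Agent.Helper62.WC
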